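import Pool.Agent.H17.Hyper.Glue
import Pool.Agent.HYP.TranslateCore
import Pool.Agent.HYP.Dnonneg

/-!
# The peak of the h*-vector of a hypersimplex

Here `L t` is the number of lattice points of the `t`-th dilate of the hypersimplex `Δ_{k,n}` and
`h` is its h*-vector.  With `m = min k (n - k)` and `q = ⌊n / m⌋`, the sequence `h` increases
weakly at every index `i` with `2 * i + 3 + q ≤ n` and decreases weakly at every index `i` with
`n ≤ 2 * i + q`.
-/

set_option autoImplicit false

namespace Pool.Agent.Results.MP_31bda2_co.PeakLocation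

open Pool.Agent.H17.Hyper

theorem result :
    ∀ n k : ℕ, 0 < k → k < n →
    ∀ L : ℕ → ℕ,
      (∀ t : ℕ, L t = ((Finset.univ : Finset (Fin n → Fin (t + 1))).filter
          (fun x => ∑ i, (x i : ℕ) = k * t)).card) →
    ∀ h : ℕ → ℤ,
      (∀ i : ℕ, h i = ∑ j ∈ Finset.range (i + 1),
          (-1 : ℤ) ^ j * (n.choose j : ℤ) * (L (i - j) : ℤ)) →
    ∀ m : ℕ, m = min k (n - k) →
      (∀ i : ℕ, 2 * i + 3 + n / m ≤ n → h i ≤ h (i + 1)) ∧
      (∀ i : ℕ, n ≤ 2 * i + n / m → h (i + 1) ≤ h i) := by
  intro n k hk hkn L hL h hh m hm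
  constructor
  · intro i hi
    rcases Nat.lt_or_ge m 2 with h1 | h1
    · exfalso
      have hm1 : m = 1 := by omega
      subst hm1
      rw [Nat.div_one] at hi
      omega
    · have h2m : 2 * m ≤ n := by omega
      have hLm : ∀ t : ℕ, L t = ((Finset.univ : Finset (Fin n → Fin (t + 1))).filter
            (fun x => ∑ i, (x i : ℕ) = m * t)).card := by
        intro t
        rcases le_total k (n - k) with h2 | h2
        · rw [hm, min_eq_left h2]
          exact hL t
        · rw [hm, min_eq_right h2, hL t]
          exact card_symm n k t hkn.le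
      exact Pool.Agent.HYP.asc_of_D_nonneg Pool.Agent.HYP.D_nonneg n m h1 h2m L hLm h hh i hi
  · intro i hi
    subst hm
    exact h_desc n k hk hkn L hL h hh i hi

end Pool.Agent.Results.MP_31bda2_co.PeakLocation
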